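import Pool.Agent.W2helper76.RW.Frozen
import Pool.Agent.W2helper58.MatAvg

/-!
# Windows of circuits with NOT gates as monotone programs: the size
-/

set_option autoImplicit false

open Finset

namespace Pool.Agent.W2helper76.SZ

open Pool.Agent.W2helper76.RW
open Pool.Agent.H560R2 (RProg)

variable {I W : Type}

/-- The number of the AND, OR and NOT gates. -/
noncomputable def size (C : Circuit I) : ℕ :=
  {i : Fin C.s | (∃ a, C.gate i = Gate.not a) ∨ (∃ a b, C.gate i = Gate.and a b) ∨
    ∃ a b, C.gate i = Gate.or a b}.ncard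

open Classical in
/-- the AND and OR gates among the first `n` gates -/
noncomputable def bins (C : Circuit I) (n : ℕ) : Finset (Fin C.s) :=
  univ.filter (fun i => i.val < n ∧ ((∃ a b, C.gate i = Gate.and a b) ∨ ∃ a b, C.gate i = Gate.or a b))

lemma bins_succ (C : Circuit I) {n : ℕ} (hn : n < C.s)
    (h : (∃ a b, C.gate ⟨n, hn⟩ = Gate.and a b) ∨ ∃ a b, C.gate ⟨n, hn⟩ = Gate.or a b) :
    (bins C (n + 1)).card = (bins C n).card + 1 := by
  classical
  have : bins C (n + 1) = insert ⟨n, hn⟩ (bins C n) := by
    ext i
    simp only [bins, mem_insert, mem_filter, mem_univ, true_and]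
    constructor
    · rintro ⟨h1, h2⟩
      by_cases hi : i.val = n
      · left; exact Fin.ext hi
      · right; exact ⟨by omega, h2⟩
    · rintro (rfl | ⟨h1, h2⟩)
      · exact ⟨by simp, h⟩
      · exact ⟨by omega, h2⟩
  rw [this, Finset.card_insert_of_notMem]
  simp [bins]

lemma bins_mono (C : Circuit I) (n : ℕ) : (bins C n).card ≤ (bins C (n + 1)).card := by
  classical
  apply Finset.card_le_card
  intro i hi
  simp only [bins, mem_filter, mem_univ, true_and] at hi ⊢
  exact ⟨by omega, hi.2⟩

lemma bins_le (C : Circuit I) (n : ℕ) : (bins C n).card ≤ size C := by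
  classical
  unfold size
  rw [← Set.ncard_coe_finset]
  apply Set.ncard_le_ncard _ (Set.toFinite _)
  intro i hi
  simp only [bins, coe_filter, mem_univ, true_and, Set.mem_ofPred_eq] at hi ⊢
  exact Or.inr hi.2

lemma numNot_le (C : Circuit I) : C.numNot ≤ size C := by
  unfold size Circuit.numNot
  apply Set.ncard_le_ncard _ (Set.toFinite _)
  intro i hi
  exact Or.inl hi

/-- constants and variables -/
def Leaves (W : Type) : Set (Set W → ℝ) :=
  {b | (∃ c, b = fun _ => c) ∨ ∃ (v : W) (c d : ℝ), c ≤ d ∧
      (∀ X, v ∈ X → b X = d) ∧ ∀ X, v ∉ X → b X = c}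

open Classical in
/-- the content of the window given by a set -/
noncomputable def chr (X : Set W) : W → Bool := fun w => decide (w ∈ X)

open Classical in
/-- the real function of a formula -/
noncomputable def rf (F : MF W) : Set W → ℝ := fun X => if F.eval (chr X) = true then 1 else 0

lemma rf_const (c : Bool) : rf (MF.const c : MF W) ∈ Leaves W := by
  left
  cases c
  · exact ⟨0, by funext X; simp [rf, MF.eval]⟩
  · exact ⟨1, by funext X; simp [rf, MF.eval]⟩

lemma rf_var (w : W) : rf (MF.var w : MF W) ∈ Leaves W := by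
  right
  refine ⟨w, 0, 1, zero_le_one, ?_, ?_⟩
  · intro X hX
    simp [rf, MF.eval, chr, hX]
  · intro X hX
    simp [rf, MF.eval, chr, hX]

lemma rf_and (F G : MF W) : rf (MF.and F G) = fun X => min (rf F X) (rf G X) := by
  funext X
  simp only [rf, MF.eval]
  by_cases h1 : F.eval (chr X) = true <;> by_cases h2 : G.eval (chr X) = true <;> simp [h1, h2]

lemma rf_or (F G : MF W) : rf (MF.or F G) = fun X => max (rf F X) (rf G X) := by
  funext X
  simp only [rf, MF.eval]
  by_cases h1 : F.eval (chr X) = true <;> by_cases h2 : G.eval (chr X) = true <;> simp [h1, h2]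

/-- one more gate -/
lemma add_gate {L : List (Set W → ℝ)} (hL : RProg (Leaves W) L) (ψ : ℝ → ℝ → ℝ)
    (hψ : ∀ a b c d, a ≤ c → b ≤ d → ψ a b ≤ ψ c d) (f g : Set W → ℝ)
    (hf : f ∈ Leaves W ∨ f ∈ L) (hg : g ∈ Leaves W ∨ g ∈ L) :
    RProg (Leaves W) ((fun X => ψ (f X) (g X)) :: L) := by
  have h4 : ∀ j : Fin 2, (![f, g] j) ∈ Leaves W ∨ (![f, g] j) ∈ L := by
    intro j
    fin_cases j
    · exact hf
    · exact hg
  have h5 := RProg.gate 2 le_rfl (fun z => ψ (z 0) (z 1))
      (fun a b hab => hψ _ _ _ _ (hab 0) (hab 1)) ![f, g] hL h4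
  have h6 : (fun X : Set W => ψ (f X) (g X)) =
      fun X => (fun z : Fin 2 → ℝ => ψ (z 0) (z 1)) (fun j => (![f, g] j) X) := by
    funext X
    simp
  rw [h6]
  exact h5

lemma mono_min : ∀ a b c d : ℝ, a ≤ c → b ≤ d → min a b ≤ min c d :=
  fun _ _ _ _ h1 h2 => min_le_min h1 h2

lemma mono_max : ∀ a b c d : ℝ, a ≤ c → b ≤ d → max a b ≤ max c d :=
  fun _ _ _ _ h1 h2 => max_le_max h1 h2

/-- The frozen circuit as a program. -/
lemma prog_upto (C : Circuit I) (φ : I → Option W) (u : I → Bool) (v0 : Fin C.s → Bool) :
    ∀ n : ℕ, n ≤ C.s → ∃ L : List (Set W → ℝ), RProg (Leaves W) L ∧ L.length ≤ (bins C n).card ∧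
      ∀ i : Fin C.s, i.val < n → rf (C.fr φ u v0 i) ∈ Leaves W ∨ rf (C.fr φ u v0 i) ∈ L := by
  intro n
  induction n with
  | zero =>
    intro _
    exact ⟨[], RProg.nil, by simp, fun i hi => absurd hi (Nat.not_lt_zero _)⟩
  | succ n ih =>
    intro hn
    obtain ⟨L, hL, hlen, hmem⟩ := ih (by omega)
    have key : ∀ F, C.fr φ u v0 ⟨n, hn⟩ = F → ∀ i : Fin C.s, i.val < n + 1 →
        i.val < n ∨ C.fr φ u v0 i = F := by
      intro F hF i hi
      by_cases h : i.val < n
      · exact Or.inl h
      · right
        have : i = ⟨n, hn⟩ := Fin.ext (by simp; omega)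
        rw [this, hF]
    cases hg : C.gate ⟨n, hn⟩ with
    | inp p =>
      refine ⟨L, hL, hlen.trans (bins_mono C n), fun i hi => ?_⟩
      rcases key _ rfl i hi with h | h
      · exact hmem i h
      · left
        rw [h, C.fr_inp hg]
        cases φ p with
        | none => exact rf_const _
        | some w => exact rf_var _
    | const c =>
      refine ⟨L, hL, hlen.trans (bins_mono C n), fun i hi => ?_⟩
      rcases key _ rfl i hi with h | h
      · exact hmem i h
      · left
        rw [h, C.fr_const hg]
        exact rf_const _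
    | not a =>
      refine ⟨L, hL, hlen.trans (bins_mono C n), fun i hi => ?_⟩
      rcases key _ rfl i hi with h | h
      · exact hmem i h
      · left
        rw [h, C.fr_not hg]
        exact rf_const _
    | and a b =>
      obtain ⟨ha, hb⟩ := C.and_lt _ a b hg
      have ha' : a.val < n := ha
      have hb' : b.val < n := hb
      refine ⟨_, add_gate hL min mono_min _ _ (hmem a ha') (hmem b hb'), ?_, fun i hi => ?_⟩
      · rw [List.length_cons, bins_succ C hn (Or.inl ⟨a, b, hg⟩)]
        omega
      · rcases key _ rfl i hi with h | h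
        · rcases hmem i h with h1 | h1
          · exact Or.inl h1
          · exact Or.inr (List.mem_cons_of_mem _ h1)
        · right
          rw [h, C.fr_and hg, rf_and]
          exact List.mem_cons_self
    | or a b =>
      obtain ⟨ha, hb⟩ := C.or_lt _ a b hg
      have ha' : a.val < n := ha
      have hb' : b.val < n := hb
      refine ⟨_, add_gate hL max mono_max _ _ (hmem a ha') (hmem b hb'), ?_, fun i hi => ?_⟩
      · rw [List.length_cons, bins_succ C hn (Or.inr ⟨a, b, hg⟩)]
        omega
      · rcases key _ rfl i hi with h | h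
        · rcases hmem i h with h1 | h1
          · exact Or.inl h1
          · exact Or.inr (List.mem_cons_of_mem _ h1)
        · right
          rw [h, C.fr_or hg, rf_or]
          exact List.mem_cons_self

/-- conjunctions of several functions of a program -/
lemma conj_prog {L : List (Set W → ℝ)} (hL : RProg (Leaves W) L) (F0 : MF W)
    (h0 : rf F0 ∈ Leaves W ∨ rf F0 ∈ L) :
    ∀ l : List (MF W), (∀ F ∈ l, rf F ∈ Leaves W ∨ rf F ∈ L) →
      ∃ (L' : List (Set W → ℝ)) (G : MF W), RProg (Leaves W) L' ∧ L'.length ≤ L.length + l.length ∧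
        (∀ f ∈ L, f ∈ L') ∧ (rf G ∈ Leaves W ∨ rf G ∈ L') ∧
        ∀ z, G.eval z = true ↔ F0.eval z = true ∧ ∀ F ∈ l, F.eval z = true := by
  intro l
  induction l with
  | nil =>
    intro _
    exact ⟨L, F0, hL, by simp, fun f hf => hf, h0, by simp⟩
  | cons F l ih =>
    intro hl
    obtain ⟨L', G, h1, h2, h3, h4, h5⟩ := ih (fun F' hF' => hl F' (List.mem_cons_of_mem _ hF'))
    have hF : rf F ∈ Leaves W ∨ rf F ∈ L' := by
      rcases hl F List.mem_cons_self with h | h
      · exact Or.inl h
      · exact Or.inr (h3 _ h)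
    refine ⟨_, MF.and F G, add_gate h1 min mono_min _ _ hF h4, ?_, ?_, ?_, ?_⟩
    · simp only [List.length_cons]
      omega
    · intro f hf
      exact List.mem_cons_of_mem _ (h3 f hf)
    · right
      rw [rf_and]
      exact List.mem_cons_self
    · intro z
      simp only [MF.eval, Bool.and_eq_true, h5 z, List.forall_mem_cons]
      tauto

/-- The monotone program of a window: `u` is the base with the window filled with ones. -/
theorem window (C : Circuit I) (φ : I → Option W) (u : I → Bool) :
    ∃ (L : List (Set W → ℝ)) (G : MF W), RProg (Leaves W) L ∧ L.length ≤ size C + C.numNot ∧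
      (rf G ∈ Leaves W ∨ rf G ∈ L) ∧
      (∀ z, ¬ C.Changed (C.depth C.out) (Circuit.inpt φ u z) (Circuit.inpt φ u fun _ => true) →
        C.eval (Circuit.inpt φ u z) = true → G.eval z = true) ∧
      (∀ z, G.eval z = true → C.eval (Circuit.inpt φ u z) = true) := by
  classical
  set D0 := C.depth C.out with hD0
  set x1 := Circuit.inpt φ u (fun _ => true) with hx1
  set v0 : Fin C.s → Bool := C.val x1 with hv0
  set F := C.fr φ u v0 with hF
  -- the arguments of the NOT gates
  let arg : Fin C.s → Fin C.s := fun j => if h : C.IsNot j then h.choose else j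
  have harg : ∀ j, C.IsNot j → C.gate j = Gate.not (arg j) := by
    intro j h
    simp only [arg, dif_pos h]
    exact h.choose_spec
  set J := (C.nots D0).filter (fun j => v0 j = false) with hJ
  set l : List (MF W) := J.toList.map (fun j => F (arg j)) with hl
  obtain ⟨L, hL, hlen, hmem⟩ := prog_upto C φ u v0 C.s le_rfl
  obtain ⟨L', G, g1, g2, g3, g4, g5⟩ := conj_prog hL (F C.out) (hmem C.out C.out.isLt) l (by
    intro f hf
    rw [hl, List.mem_map] at hf
    obtain ⟨j, -, rfl⟩ := hf
    exact hmem (arg j) (arg j).isLt)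
  refine ⟨L', G, g1, ?_, g4, ?_, ?_⟩
  · have h1 : l.length ≤ C.numNot := by
      rw [hl, List.length_map, Finset.length_toList]
      exact (Finset.card_filter_le _ _).trans (C.card_nots D0)
    have h2 := bins_le C C.s
    omega
  · intro z hz hC
    rw [g5]
    have hsame : ∀ j ∈ C.nots D0, C.val (Circuit.inpt φ u z) j = v0 j := by
      intro j hj
      by_contra hne
      exact hz ⟨j, hj, hne⟩
    have hval := C.fr_eval_same (D := D0) φ u v0 z hsame
    refine ⟨by rw [hF, hval _ C.out rfl le_rfl]; exact hC, ?_⟩
    intro f hf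
    rw [hl, List.mem_map] at hf
    obtain ⟨j, hj, rfl⟩ := hf
    rw [Finset.mem_toList, hJ, Finset.mem_filter] at hj
    have h1 := C.depth_not (harg j (C.mem_nots.1 hj.1).1)
    rw [hF, hval _ (arg j) rfl (by rw [← h1]; exact (C.mem_nots.1 hj.1).2)]
    have h2 := hsame j hj.1
    rw [C.val_not (harg j (C.mem_nots.1 hj.1).1), hj.2] at h2
    simpa using h2
  · intro z hz
    rw [g5] at hz
    obtain ⟨hz0, hz⟩ := hz
    have hbase := C.fr_eval_same (D := D0) φ u v0 (fun _ => true) (fun j _ => rfl)
    have hcond : ∀ j ∈ C.nots D0, ∀ a, C.gate j = Gate.not a → (!(C.fr φ u v0 a).eval z) = v0 j := by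
      intro j hj a ha
      have hja : arg j = a := by
        have := harg j ⟨a, ha⟩
        rw [ha] at this
        exact (Gate.not.inj this).symm
      have hda : C.depth a ≤ D0 := by
        rw [← C.depth_not ha]; exact (C.mem_nots.1 hj).2
      cases hv : v0 j with
      | false =>
        have h1 : (F (arg j)).eval z = true := by
          apply hz
          rw [hl, List.mem_map]
          exact ⟨j, by rw [Finset.mem_toList, hJ, Finset.mem_filter]; exact ⟨hj, hv⟩, rfl⟩
        rw [hja] at h1
        rw [← hF, h1]; rfl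
      | true =>
        have h1 : (F a).eval (fun _ => true) = false := by
          rw [hF, hbase _ a rfl hda]
          have : v0 j = !(C.val x1 a) := by rw [hv0]; exact C.val_not ha
          rw [hv] at this
          simpa using this.symm
        have h2 : (F a).eval z = false := by
          by_contra hne
          rw [Bool.not_eq_false] at hne
          have := MF.eval_mono (F a) (z := z) (z' := fun _ => true) (fun _ _ => rfl) hne
          rw [h1] at this
          exact absurd this (by simp)
        rw [← hF, h2]; rfl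
    have := C.fr_eval (D := D0) φ u v0 z hcond _ C.out rfl le_rfl
    unfold Circuit.eval
    rw [← this, ← hF]
    exact hz0

end Pool.Agent.W2helper76.SZ
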