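import Pool.Agent.W2helper76.SZ.Window
import Pool.Agent.W2helper76.RW.Chain

/-!
# The chain of the blocks: circuits of small size
-/

set_option autoImplicit false
set_option linter.unusedSectionVars false

open Finset

namespace Pool.Agent.W2helper76.SZ

open Pool.Agent.W2helper76.RW (Circuit enc phi inpt_enc enc_mono resample)
open Pool.Agent.H560R2 (RProg BlockHard)

section

variable {I W P : Type} {m : ℕ}

/-- The contents before the block `b` is used: the blocks with smaller numbers contain the given
small sets, the others are full. -/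
noncomputable def base (sp : P → Finset W) (b : ℕ) (γ : Fin m → P) : Fin m → W → Bool := fun b' =>
  if b'.val < b then chr (sp (γ b') : Set W) else fun _ => true

lemma base_update_true (sp : P → Finset W) (b : Fin m) (γ : Fin m → P) (g : P) :
    Function.update (base sp b.val γ) b (fun _ => true) = base sp b.val (Function.update γ b g) := by
  funext b'
  by_cases h : b' = b
  · subst h; simp [base]
  · simp [Function.update_of_ne h, base]

lemma base_update_act (sp : P → Finset W) (b : Fin m) (γ : Fin m → P) (g : P) :
    Function.update (base sp b.val γ) b (chr (sp g : Set W)) =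
      base sp (b.val + 1) (Function.update γ b g) := by
  funext b'
  by_cases h : b' = b
  · subst h; simp [base]
  · have h2 : b'.val ≠ b.val := fun h3 => h (Fin.ext h3)
    have h3 : (b'.val < b.val + 1) ↔ (b'.val < b.val) := by omega
    simp only [Function.update_of_ne h, base, h3]

lemma base_anti (sp : P → Finset W) (b : ℕ) (γ : Fin m → P) (b' : Fin m) (w : W) :
    base sp (b + 1) γ b' w = true → base sp b γ b' w = true := by
  unfold base
  by_cases h : b'.val < b
  · rw [if_pos h, if_pos (by omega)]; exact id
  · rw [if_neg h]; intro _; rfl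

open Classical in
/-- few changes of the NOT gates along the chain -/
lemma changes (sp : P → Finset W) (spec : I → Bool ⊕ (Fin m × W)) (C : Circuit I) (D0 : ℕ) {t : ℕ}
    (ht : C.numNot ≤ t) (γ : Fin m → P) :
    ∑ b : Fin m, (if C.Changed D0 (enc spec (base sp (b.val + 1) γ)) (enc spec (base sp b.val γ))
      then (1 : ℝ) else 0) ≤ 2 ^ t := by
  have step : ∀ b : ℕ, C.wt D0 (enc spec (base sp (b + 1) γ)) +
      (if C.Changed D0 (enc spec (base sp (b + 1) γ)) (enc spec (base sp b γ)) then 1 else 0) ≤
      C.wt D0 (enc spec (base sp b γ)) := by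
    intro b
    exact C.wt_step (fun p => enc_mono spec _ _ (base_anti sp b γ) p)
  have tel : ∀ k : ℕ, C.wt D0 (enc spec (base sp k γ)) + ∑ b ∈ Finset.range k,
      (if C.Changed D0 (enc spec (base sp (b + 1) γ)) (enc spec (base sp b γ)) then 1 else 0) ≤
      C.wt D0 (enc spec (base sp 0 γ)) := by
    intro k
    induction k with
    | zero => simp
    | succ k ih =>
      rw [Finset.sum_range_succ]
      have := step k
      omega
  have h1 := tel m
  have h2 := C.wt_lt D0 (enc spec (base sp 0 γ))
  have h3 : (2 : ℕ) ^ (C.nots D0).card ≤ 2 ^ t :=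
    Nat.pow_le_pow_right (by norm_num) ((C.card_nots D0).trans ht)
  have h4 : ∑ b ∈ Finset.range m,
      (if C.Changed D0 (enc spec (base sp (b + 1) γ)) (enc spec (base sp b γ)) then 1 else 0) ≤
      2 ^ t := by
    omega
  rw [Finset.sum_range] at h4
  exact_mod_cast h4

end

variable {I W P N : Type} {m : ℕ} [Fintype P] [Nonempty P] [Fintype N] [Nonempty N]

open Classical in
/-- the circuit accepts -/
noncomputable def ind {I : Type} (C : Circuit I) (x : I → Bool) : ℝ :=
  if C.eval x = true then 1 else 0

open Classical in
/-- The chain argument on average, for one circuit. -/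
theorem chain {S : ℕ} {ε : ℝ} {sp : P → Finset W} {sn : N → Finset W} (hA : BlockHard S ε sp sn)
    (spec : I → Bool ⊕ (Fin m × W)) (C : Circuit I) {t : ℕ} (ht : C.numNot ≤ t)
    (hS : size C + C.numNot ≤ S) :
    (∑ b : Fin m, ∑ γ : Fin m → P, ind C (enc spec (base sp (b.val + 1) γ))) * Fintype.card N ≤
      (∑ b : Fin m, ∑ γ : Fin m → P, ∑ ω : N,
        ind C (enc spec (Function.update (base sp b.val γ) b (chr (sn ω : Set W))))) +
      (2 ^ t + m * ε) * (Fintype.card (Fin m → P) * Fintype.card N) := by
  set Np : ℝ := (Fintype.card N : ℝ) with hN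
  set Pp : ℝ := (Fintype.card P : ℝ) with hP
  set M : ℝ := (Fintype.card (Fin m → P) : ℝ) with hM
  have hNpos : 0 < Np := by rw [hN]; exact_mod_cast Fintype.card_pos
  have hPpos : 0 < Pp := by rw [hP]; exact_mod_cast Fintype.card_pos
  let ch : Fin m → (Fin m → P) → ℝ := fun b γ =>
    if C.Changed (C.depth C.out) (enc spec (base sp (b.val + 1) γ)) (enc spec (base sp b.val γ))
      then (1 : ℝ) else 0
  let no : Fin m → (Fin m → P) → ℝ := fun b γ => ∑ ω : N,
    ind C (enc spec (Function.update (base sp b.val γ) b (chr (sn ω : Set W))))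
  -- one window
  have hwin : ∀ (b : Fin m) (γ : Fin m → P),
      (∑ g : P, (ind C (enc spec (base sp (b.val + 1) (Function.update γ b g))) -
        ch b (Function.update γ b g))) * Np ≤ no b γ * Pp + ε * (Pp * Np) := by
    intro b γ
    obtain ⟨L, G, hL, hlen, hG, hG2, hG3⟩ := window C (phi spec b) (enc spec (base sp b.val γ))
    have h1 := hA (Leaves W) (fun b hb => hb) L hL (hlen.trans hS) (rf G) hG 1
    have hrf : ∀ X : Set W, (1 : ℝ) ≤ rf G X ↔ G.eval (chr X) = true := by
      intro X
      unfold rf
      split_ifs with h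
      · simp [h]
      · simp [h]
    simp only [hrf] at h1
    rw [div_le_iff₀ hPpos] at h1
    have h2 : ((univ.filter (fun p : P => G.eval (chr (sp p : Set W)) = true)).card : ℝ) * Np ≤
        ((univ.filter (fun n : N => G.eval (chr (sn n : Set W)) = true)).card : ℝ) * Pp +
          ε * (Pp * Np) := by
      calc _ ≤ ((((univ.filter (fun n : N => G.eval (chr (sn n : Set W)) = true)).card : ℝ) / Np + ε) *
            Pp) * Np := mul_le_mul_of_nonneg_right h1 hNpos.le
        _ = _ := by field_simp
    have h3 : ∑ g : P, (ind C (enc spec (base sp (b.val + 1) (Function.update γ b g))) -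
        ch b (Function.update γ b g)) ≤
        ((univ.filter (fun p : P => G.eval (chr (sp p : Set W)) = true)).card : ℝ) := by
      rw [← Finset.sum_boole]
      apply Finset.sum_le_sum
      intro g _
      have h := hG2 (chr (sp g : Set W))
      rw [inpt_enc, inpt_enc, base_update_act, base_update_true sp b γ g] at h
      simp only [ch, ind]
      by_cases h1 : C.Changed (C.depth C.out)
          (enc spec (base sp (b.val + 1) (Function.update γ b g)))
          (enc spec (base sp b.val (Function.update γ b g)))
      · rw [if_pos h1]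
        have e1 : (if C.eval (enc spec (base sp (b.val + 1) (Function.update γ b g))) = true
          then (1 : ℝ) else 0) ≤ 1 := by split_ifs <;> norm_num
        have e2 : (0 : ℝ) ≤ if G.eval (chr (sp g : Set W)) = true then 1 else 0 := by
          split_ifs <;> norm_num
        linarith
      · rw [if_neg h1, sub_zero]
        by_cases h2 : C.eval (enc spec (base sp (b.val + 1) (Function.update γ b g))) = true
        · rw [if_pos h2, if_pos (h h1 h2)]
        · rw [if_neg h2]
          split_ifs <;> norm_num
    have h4 : ((univ.filter (fun n : N => G.eval (chr (sn n : Set W)) = true)).card : ℝ) ≤ no b γ := by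
      rw [← Finset.sum_boole]
      apply Finset.sum_le_sum
      intro ω _
      have h := hG3 (chr (sn ω : Set W))
      rw [inpt_enc] at h
      simp only [ind]
      by_cases h2 : G.eval (chr (sn ω : Set W)) = true
      · rw [if_pos h2, if_pos (h h2)]
      · rw [if_neg h2]
        split_ifs <;> norm_num
    calc _ ≤ _ := mul_le_mul_of_nonneg_right h3 hNpos.le
      _ ≤ _ := h2
      _ ≤ _ := by
          have := mul_le_mul_of_nonneg_right h4 hPpos.le
          linarith
  have hsum : ∀ b : Fin m, (∑ γ : Fin m → P, (ind C (enc spec (base sp (b.val + 1) γ)) - ch b γ)) * Np ≤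
      (∑ γ : Fin m → P, no b γ) + ε * (M * Np) := by
    intro b
    have h1 : (∑ γ : Fin m → P, ∑ g : P,
        (ind C (enc spec (base sp (b.val + 1) (Function.update γ b g))) -
        ch b (Function.update γ b g))) * Np ≤ (∑ γ : Fin m → P, no b γ) * Pp + ε * (Pp * Np) * M := by
      rw [Finset.sum_mul]
      refine (Finset.sum_le_sum (fun γ _ => hwin b γ)).trans (le_of_eq ?_)
      rw [Finset.sum_add_distrib, ← Finset.sum_mul, Finset.sum_const, Finset.card_univ, nsmul_eq_mul]
      ring
    have h2 := resample b (fun γ => ind C (enc spec (base sp (b.val + 1) γ)) - ch b γ)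
    rw [h2] at h1
    refine le_of_mul_le_mul_right ?_ hPpos
    calc _ = (Pp * ∑ γ : Fin m → P, (ind C (enc spec (base sp (b.val + 1) γ)) - ch b γ)) * Np := by
          ring
      _ ≤ _ := h1
      _ = _ := by ring
  have hch : ∑ b : Fin m, ∑ γ : Fin m → P, ch b γ ≤ M * 2 ^ t := by
    rw [Finset.sum_comm]
    have h1 : ∑ γ : Fin m → P, ∑ b : Fin m, ch b γ ≤ ∑ γ : Fin m → P, (2 : ℝ) ^ t :=
      Finset.sum_le_sum (fun γ _ => changes sp spec C _ ht γ)
    rwa [Finset.sum_const, Finset.card_univ, nsmul_eq_mul, ← hM] at h1
  have hall := Finset.sum_le_sum (fun b (_ : b ∈ (univ : Finset (Fin m))) => hsum b)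
  rw [← Finset.sum_mul, Finset.sum_add_distrib] at hall
  simp only [Finset.sum_sub_distrib] at hall
  rw [Finset.sum_const, Finset.card_univ, Fintype.card_fin, nsmul_eq_mul] at hall
  have h5 := mul_le_mul_of_nonneg_right hch hNpos.le
  simp only [no] at hall
  nlinarith

end Pool.Agent.W2helper76.SZ
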