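import Pool.Agent.W2helper76.SZ.Chain
import Pool.Agent.W2helper76.RW.PMDepth
import Pool.Agent.W2lead.PMMain

/-!
# Perfect matching: the size of circuits with few NOT gates
-/

set_option autoImplicit false
set_option linter.unusedSectionVars false

open Finset

namespace Pool.Agent.W2helper76.SZ

open Pool.Agent.W2helper76.RW (Circuit enc DecidesPM Bipartite accProb)
open Pool.Agent.W2lead.PM (graph HasPM place place_slot slot fixedE slot_inj slot_ne_fixed perm_of_hasPM
  hasPM_of_perm)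
open Pool.Agent.H560R2 (RProg BlockHard pgr mem_pgr)

section

variable {V : Type} {m k q : ℕ} (e : (Fin m × Fin k × Bool) ⊕ (Fin q × Bool) ≃ V)

open Classical in
/-- the meaning of the bits -/
noncomputable def gsp (p : Sym2 V) : Bool ⊕ (Fin m × (Fin k × Fin k)) :=
  if h : ∃ x, slot e x = p then Sum.inr h.choose
  else if ∃ c, fixedE e c = p then Sum.inl true else Sum.inl false

lemma enc_slot (z : Fin m → (Fin k × Fin k) → Bool) (x : Fin m × (Fin k × Fin k)) :
    enc (gsp e) z (slot e x) = z x.1 x.2 := by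
  classical
  have h : ∃ x', slot e x' = slot e x := ⟨x, rfl⟩
  have h2 : h.choose = x := slot_inj e h.choose_spec
  unfold enc gsp
  rw [dif_pos h]
  show z h.choose.1 h.choose.2 = _
  rw [h2]

lemma enc_fixed (z : Fin m → (Fin k × Fin k) → Bool) (c : Fin q) :
    enc (gsp e) z (fixedE e c) = true := by
  classical
  have h : ¬ ∃ x', slot e x' = fixedE e c := by
    rintro ⟨x, hx⟩
    exact slot_ne_fixed e x c hx
  have h2 : ∃ c', fixedE e c' = fixedE e c := ⟨c, rfl⟩
  unfold enc gsp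
  rw [dif_neg h, if_pos h2]

lemma enc_rest (z : Fin m → (Fin k × Fin k) → Bool) (s : Sym2 V) (h1 : ¬ ∃ x, slot e x = s)
    (h2 : ¬ ∃ c, fixedE e c = s) : enc (gsp e) z s = false := by
  classical
  unfold enc gsp
  rw [dif_neg h1, if_neg h2]

lemma place_iff (z : Fin m → Set (Fin k × Fin k)) (s : Sym2 V) : place e z s = true ↔
    ((∃ i p, s = slot e (i, p) ∧ p ∈ z i) ∨ ∃ c, s = fixedE e c) :=
  @decide_eq_true_iff _ (_)

lemma enc_gsp (z : Fin m → (Fin k × Fin k) → Bool) :
    enc (gsp e) z = place e (fun i => {p | z i p = true}) := by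
  classical
  funext s
  by_cases h : ∃ x, slot e x = s
  · obtain ⟨⟨i, p⟩, rfl⟩ := h
    rw [enc_slot, Bool.eq_iff_iff, place_slot]
    exact Iff.rfl
  · by_cases h3 : ∃ c, fixedE e c = s
    · obtain ⟨c, rfl⟩ := h3
      rw [enc_fixed]
      symm
      rw [place_iff]
      exact Or.inr ⟨c, rfl⟩
    · rw [enc_rest e z s h h3]
      symm
      rw [← Bool.not_eq_true, place_iff]
      rintro (⟨i, p, h4, -⟩ | ⟨c, h4⟩)
      · exact h ⟨(i, p), h4.symm⟩
      · exact h3 ⟨c, h4.symm⟩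

lemma chr_set (X : Set (Fin k × Fin k)) : {p | chr X p = true} = X := by
  classical
  ext p
  simp [chr]

/-- the yes-instances -/
lemma yes_inst (γ : Fin m → Equiv.Perm (Fin k)) (b : ℕ) :
    HasPM (enc (gsp e) (base (pgr (n := k)) b γ)) := by
  rw [enc_gsp]
  apply hasPM_of_perm e γ
  intro i a
  show base (pgr (n := k)) b γ i (a, γ i a) = true
  unfold base
  split_ifs
  · simp [chr, mem_pgr]
  · rfl

/-- the no-instances -/
lemma no_inst (γ : Fin m → Equiv.Perm (Fin k)) (b : Fin m) (X : Finset (Fin k × Fin k))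
    (hX : ∀ σ : Equiv.Perm (Fin k), ¬ pgr σ ⊆ X) :
    ¬ HasPM (enc (gsp e) (Function.update (base (pgr (n := k)) b.val γ) b (chr (X : Set _)))) := by
  intro h
  rw [enc_gsp] at h
  obtain ⟨σ, hσ⟩ := perm_of_hasPM e h b
  apply hX σ
  intro p hp
  rw [mem_pgr] at hp
  have h1 := hσ p.1
  rw [hp, Function.update_self, chr_set] at h1
  exact h1

end

section bip

variable {m k q n : ℕ}

/-- the placement of the blocks -/
noncomputable def placeFn (e1 : ((Fin m × Fin k) ⊕ Fin q) ≃ Fin n) :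
    (Fin m × Fin k × Bool) ⊕ (Fin q × Bool) → Fin n ⊕ Fin n
  | Sum.inl (i, a, false) => Sum.inl (e1 (Sum.inl (i, a)))
  | Sum.inl (i, a, true) => Sum.inr (e1 (Sum.inl (i, a)))
  | Sum.inr (j, false) => Sum.inl (e1 (Sum.inr j))
  | Sum.inr (j, true) => Sum.inr (e1 (Sum.inr j))

lemma placeFn_inj (e1 : ((Fin m × Fin k) ⊕ Fin q) ≃ Fin n) : Function.Injective (placeFn e1) := by
  intro x y h
  rcases x with ⟨b, l, _ | _⟩ | ⟨j, _ | _⟩ <;> rcases y with ⟨b', l', _ | _⟩ | ⟨j', _ | _⟩ <;>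
    simp [placeFn] at h ⊢ <;> exact h

lemma exists_placement (h : m * k + q = n) :
    ∃ e : (Fin m × Fin k × Bool) ⊕ (Fin q × Bool) ≃ (Fin n ⊕ Fin n),
      (∀ b l, (e (Sum.inl (b, l, false))).isLeft = true) ∧
      (∀ b r, (e (Sum.inl (b, r, true))).isLeft = false) ∧
      (∀ j, (e (Sum.inr (j, false))).isLeft = true) ∧
      (∀ j, (e (Sum.inr (j, true))).isLeft = false) := by
  have c1 : Fintype.card ((Fin m × Fin k) ⊕ Fin q) = Fintype.card (Fin n) := by
    rw [Fintype.card_sum, Fintype.card_prod, Fintype.card_fin, Fintype.card_fin, Fintype.card_fin,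
      Fintype.card_fin, ← h]
  have e1 := Fintype.equivOfCardEq c1
  have hb : Function.Bijective (placeFn e1) := by
    rw [Fintype.bijective_iff_injective_and_card]
    refine ⟨placeFn_inj e1, ?_⟩
    rw [Fintype.card_sum, Fintype.card_prod, Fintype.card_prod, Fintype.card_prod,
      Fintype.card_bool, Fintype.card_fin, Fintype.card_fin, Fintype.card_sum, Fintype.card_fin,
      Fintype.card_fin, ← h]
    ring
  exact ⟨Equiv.ofBijective _ hb, fun b l => rfl, fun b r => rfl, fun j => rfl, fun j => rfl⟩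

lemma bip_place (e : (Fin m × Fin k × Bool) ⊕ (Fin q × Bool) ≃ (Fin n ⊕ Fin n))
    (h1 : ∀ b l, (e (Sum.inl (b, l, false))).isLeft = true)
    (h2 : ∀ b r, (e (Sum.inl (b, r, true))).isLeft = false)
    (h3 : ∀ j, (e (Sum.inr (j, false))).isLeft = true)
    (h4 : ∀ j, (e (Sum.inr (j, true))).isLeft = false)
    (z : Fin m → (Fin k × Fin k) → Bool) : Bipartite (enc (gsp e) z) := by
  classical
  intro u v huv
  rw [enc_gsp, place_iff] at huv
  rcases huv with ⟨i, p, hx, -⟩ | ⟨j, hj⟩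
  · simp only [slot, Sym2.eq_iff] at hx
    rcases hx with ⟨rfl, rfl⟩ | ⟨rfl, rfl⟩
    · rw [h1, h2]; simp
    · rw [h1, h2]; simp
  · simp only [fixedE, Sym2.eq_iff] at hj
    rcases hj with ⟨rfl, rfl⟩ | ⟨rfl, rfl⟩
    · rw [h3, h4]; simp
    · rw [h3, h4]; simp

end bip

open Classical in
/-- The main inequality. -/
theorem pm_size {δ : ℝ} {n m k q w lam t : ℕ} (hn : m * k + q = n) (hm : 0 < m) (hw : 1 ≤ w)
    (hk : k < 2 ^ lam) (hbig : 2 ^ 59 * (lam + 1) ^ 8 * w ^ 8 ≤ k)
    (Ω : Type) [Fintype Ω] (p : Ω → ℝ) (C : Ω → Circuit (Sym2 (Fin n ⊕ Fin n)))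
    (hdec : DecidesPM δ p C) (ht : ∀ ω, (C ω).numNot ≤ t)
    (hS : ∀ ω, size (C ω) + (C ω).numNot ≤ 2 ^ w) : δ ≤ 2 ^ t / m + 1 / w := by
  obtain ⟨hp, hp1, θ, hyes, hno⟩ := hdec
  obtain ⟨e, he1, he2, he3, he4⟩ := exists_placement hn
  have hbip := bip_place e he1 he2 he3 he4
  obtain ⟨Ng, hNg, hNgne, sn, hsn, hA⟩ := Pool.Agent.W2helper58.match_avg (n := k) w lam hw hk hbig
  have hacc : ∀ x, accProb p C x = ∑ ω, p ω * ind (C ω) x := by
    intro x
    unfold accProb ind
    apply Finset.sum_congr rfl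
    intro ω _
    split_ifs <;> simp
  set P := Equiv.Perm (Fin k) with hP
  set M : ℝ := (Fintype.card (Fin m → P) : ℝ) with hM
  set Np : ℝ := (Fintype.card Ng : ℝ) with hNp
  have hM0 : 0 < M := by rw [hM]; exact_mod_cast Fintype.card_pos
  have hN0 : 0 < Np := by rw [hNp]; exact_mod_cast Fintype.card_pos
  have hm0 : (0 : ℝ) < m := by exact_mod_cast hm
  have hch : ∀ ω, _ := fun ω => chain (m := m) hA (gsp e) (C ω) (ht ω) (hS ω)
  -- the average over the circuits
  have h1 : ∑ ω, p ω * ((∑ b : Fin m, ∑ γ : Fin m → P,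
      ind (C ω) (enc (gsp e) (base (pgr (n := k)) (b.val + 1) γ))) * Np) ≤
      ∑ ω, p ω * ((∑ b : Fin m, ∑ γ : Fin m → P, ∑ η : Ng,
        ind (C ω) (enc (gsp e) (Function.update (base (pgr (n := k)) b.val γ) b
          (chr (sn η : Set (Fin k × Fin k)))))) + (2 ^ t + m * (1 / w)) * (M * Np)) :=
    Finset.sum_le_sum (fun ω _ => mul_le_mul_of_nonneg_left (hch ω) (hp ω))
  have hY : (θ + δ) * (m * M * Np) ≤ ∑ ω, p ω * ((∑ b : Fin m, ∑ γ : Fin m → P,
      ind (C ω) (enc (gsp e) (base (pgr (n := k)) (b.val + 1) γ))) * Np) := by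
    have e1 : ∑ ω, p ω * ((∑ b : Fin m, ∑ γ : Fin m → P,
        ind (C ω) (enc (gsp e) (base (pgr (n := k)) (b.val + 1) γ))) * Np) =
        (∑ b : Fin m, ∑ γ : Fin m → P, ∑ ω, p ω *
        ind (C ω) (enc (gsp e) (base (pgr (n := k)) (b.val + 1) γ))) * Np := by
      have e0 : ∀ ω, p ω * ((∑ b : Fin m, ∑ γ : Fin m → P,
        ind (C ω) (enc (gsp e) (base (pgr (n := k)) (b.val + 1) γ))) * Np) =
        (p ω * (∑ b : Fin m, ∑ γ : Fin m → P,
        ind (C ω) (enc (gsp e) (base (pgr (n := k)) (b.val + 1) γ)))) * Np := fun ω => by ring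
      rw [Finset.sum_congr rfl (fun ω _ => e0 ω), ← Finset.sum_mul]
      congr 1
      simp only [Finset.mul_sum]
      rw [Finset.sum_comm]
      apply Finset.sum_congr rfl
      intro b _
      rw [Finset.sum_comm]
    rw [e1]
    have e2 : (θ + δ) * (m * M * Np) = (∑ b : Fin m, ∑ γ : Fin m → P, (θ + δ)) * Np := by
      simp only [Finset.sum_const, Finset.card_univ, nsmul_eq_mul, Fintype.card_fin, ← hM]
      ring
    rw [e2]
    apply mul_le_mul_of_nonneg_right _ hN0.le
    apply Finset.sum_le_sum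
    intro b _
    apply Finset.sum_le_sum
    intro γ _
    rw [← hacc]
    exact hyes _ (hbip _) (yes_inst e γ _)
  have hNo : ∑ ω, p ω * ((∑ b : Fin m, ∑ γ : Fin m → P, ∑ η : Ng,
        ind (C ω) (enc (gsp e) (Function.update (base (pgr (n := k)) b.val γ) b
          (chr (sn η : Set (Fin k × Fin k)))))) + (2 ^ t + m * (1 / w)) * (M * Np)) ≤
      θ * (m * M * Np) + (2 ^ t + m * (1 / w)) * (M * Np) := by
    have e0 : ∑ ω, p ω * ((∑ b : Fin m, ∑ γ : Fin m → P, ∑ η : Ng,
        ind (C ω) (enc (gsp e) (Function.update (base (pgr (n := k)) b.val γ) b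
          (chr (sn η : Set (Fin k × Fin k)))))) + (2 ^ t + m * (1 / w)) * (M * Np)) =
        ∑ ω, p ω * (∑ b : Fin m, ∑ γ : Fin m → P, ∑ η : Ng,
        ind (C ω) (enc (gsp e) (Function.update (base (pgr (n := k)) b.val γ) b
          (chr (sn η : Set (Fin k × Fin k)))))) + (2 ^ t + m * (1 / w)) * (M * Np) := by
      have e00 : ∀ ω, p ω * ((∑ b : Fin m, ∑ γ : Fin m → P, ∑ η : Ng,
        ind (C ω) (enc (gsp e) (Function.update (base (pgr (n := k)) b.val γ) b
          (chr (sn η : Set (Fin k × Fin k)))))) + (2 ^ t + m * (1 / w)) * (M * Np)) =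
        p ω * (∑ b : Fin m, ∑ γ : Fin m → P, ∑ η : Ng,
        ind (C ω) (enc (gsp e) (Function.update (base (pgr (n := k)) b.val γ) b
          (chr (sn η : Set (Fin k × Fin k)))))) + p ω * ((2 ^ t + m * (1 / w)) * (M * Np)) :=
        fun ω => mul_add _ _ _
      rw [Finset.sum_congr rfl (fun ω _ => e00 ω), Finset.sum_add_distrib, ← Finset.sum_mul, hp1,
        one_mul]
    rw [e0]
    apply add_le_add_left
    have e1 : ∑ ω, p ω * (∑ b : Fin m, ∑ γ : Fin m → P, ∑ η : Ng,
        ind (C ω) (enc (gsp e) (Function.update (base (pgr (n := k)) b.val γ) b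
          (chr (sn η : Set (Fin k × Fin k)))))) =
        ∑ b : Fin m, ∑ γ : Fin m → P, ∑ η : Ng, ∑ ω, p ω *
        ind (C ω) (enc (gsp e) (Function.update (base (pgr (n := k)) b.val γ) b
          (chr (sn η : Set (Fin k × Fin k))))) := by
      simp only [Finset.mul_sum]
      rw [Finset.sum_comm]
      apply Finset.sum_congr rfl
      intro b _
      rw [Finset.sum_comm]
      apply Finset.sum_congr rfl
      intro γ _
      rw [Finset.sum_comm]
    rw [e1]
    have e2 : θ * (m * M * Np) = ∑ b : Fin m, ∑ γ : Fin m → P, ∑ η : Ng, θ := by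
      simp only [Finset.sum_const, Finset.card_univ, nsmul_eq_mul, Fintype.card_fin, ← hM, ← hNp]
      ring
    rw [e2]
    apply Finset.sum_le_sum
    intro b _
    apply Finset.sum_le_sum
    intro γ _
    apply Finset.sum_le_sum
    intro η _
    rw [← hacc]
    exact hno _ (hbip _) (no_inst e γ b (sn η) (hsn η))
  have h2 := hY.trans (h1.trans hNo)
  have h3 : δ * m * (M * Np) ≤ (2 ^ t + m * (1 / w)) * (M * Np) := by
    have : (θ + δ) * (m * M * Np) = θ * (m * M * Np) + δ * m * (M * Np) := by ring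
    linarith
  have h4 : δ * m ≤ 2 ^ t + m * (1 / w) := le_of_mul_le_mul_right h3 (by positivity)
  have h5 : (2 ^ t / m + 1 / w : ℝ) = (2 ^ t + m * (1 / w)) / m := by field_simp
  rw [h5, le_div_iff₀ hm0]
  exact h4

end Pool.Agent.W2helper76.SZ
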