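import Pool.Agent.W2helper76.SZ.Graph

/-!
# Perfect matching: size against the number of NOT gates
-/

set_option autoImplicit false

open Finset

namespace Pool.Agent.W2helper76.SZ

open Pool.Agent.W2helper76.RW (Circuit DecidesPM)

lemma log_le (n : ℕ) : ((Nat.log 2 n + 2 : ℕ) : ℝ) ≤ 3 * Real.logb 2 (n + 2) := by
  have h1 : (Nat.log 2 n : ℝ) ≤ Real.logb 2 (n + 2) := by
    rcases Nat.eq_zero_or_pos n with rfl | hn
    · simp
    · have h2 : ((2 : ℝ)) ^ (Nat.log 2 n) ≤ n := by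
        exact_mod_cast Nat.pow_log_le_self 2 hn.ne'
      rw [Real.le_logb_iff_rpow_le (by norm_num) (by positivity)]
      rw [Real.rpow_natCast]
      linarith
  have h3 : (1 : ℝ) ≤ Real.logb 2 (n + 2) := by
    rw [Real.le_logb_iff_rpow_le (by norm_num) (by positivity)]
    rw [Real.rpow_one]
    have : (0 : ℝ) ≤ n := Nat.cast_nonneg n
    linarith
  push_cast
  linarith

theorem size_bound {δ : ℝ} (hδ : 0 < δ) : ∃ c : ℝ, 0 < c ∧ ∀ (n t w : ℕ) (_ : 1 ≤ w)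
    (Ω : Type) [Fintype Ω] (p : Ω → ℝ) (C : Ω → Circuit (Sym2 (Fin n ⊕ Fin n))),
    DecidesPM δ p C → (∀ ω, (C ω).numNot ≤ t) → (∀ ω, size (C ω) ≤ 2 ^ w) →
    c * n ≤ 2 ^ t * (w * Real.logb 2 (n + 2)) ^ 8 := by
  classical
  obtain ⟨K, hK⟩ : ∃ K : ℕ, K = 2 + ⌈2 / δ⌉₊ := ⟨_, rfl⟩
  have hK2 : 2 ≤ K := by omega
  have hKδ : 2 / δ ≤ (K : ℝ) := by
    have h1 := Nat.le_ceil (2 / δ)
    rw [hK]
    push_cast
    linarith
  obtain ⟨A, hA⟩ : ∃ A : ℝ, A = 4 / δ + 1 := ⟨_, rfl⟩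
  have hA0 : 0 < A := by rw [hA]; positivity
  have hA1 : 1 ≤ A := by rw [hA]; have : 0 < 4 / δ := by positivity
                         linarith
  have hK0 : (0 : ℝ) < K := by
    have : 0 < K := by omega
    exact_mod_cast this
  refine ⟨1 / (A * 2 ^ 59 * (3 * K) ^ 8), by positivity, ?_⟩
  intro n t w hw Ω _ p C hdec ht hs
  obtain ⟨W, hW⟩ : ∃ W, W = K * w := ⟨_, rfl⟩
  obtain ⟨lam, hlam⟩ : ∃ lam, lam = Nat.log 2 n + 1 := ⟨_, rfl⟩
  obtain ⟨k, hk⟩ : ∃ k, k = 2 ^ 59 * (lam + 1) ^ 8 * W ^ 8 := ⟨_, rfl⟩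
  have hWw : w + 1 ≤ W := by rw [hW]; nlinarith
  have hW1 : 1 ≤ W := by omega
  have hkpos : 0 < k := by rw [hk]; positivity
  have hkR : (0 : ℝ) < k := by exact_mod_cast hkpos
  have hT : (1 : ℝ) ≤ 2 ^ t := one_le_pow₀ (by norm_num)
  have hmain : (n : ℝ) ≤ A * 2 ^ t * k := by
    rcases Nat.lt_or_ge n k with hnk | hnk
    · have h1 : (n : ℝ) ≤ k := by exact_mod_cast hnk.le
      have h2 : (1 : ℝ) ≤ A * 2 ^ t := one_le_mul_of_one_le_of_one_le hA1 hT
      calc (n : ℝ) ≤ 1 * k := by rw [one_mul]; exact h1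
        _ ≤ A * 2 ^ t * k := mul_le_mul_of_nonneg_right h2 hkR.le
    · obtain ⟨m, hm⟩ : ∃ m, m = n / k := ⟨_, rfl⟩
      have hm0 : 0 < m := by rw [hm]; exact Nat.div_pos hnk hkpos
      obtain ⟨q, hq⟩ : ∃ q, m * k + q = n := ⟨n - m * k, by
        have : m * k ≤ n := by rw [hm]; exact Nat.div_mul_le_self n k
        omega⟩
      have hklt : k < 2 ^ lam := by
        refine lt_of_le_of_lt hnk ?_
        rw [hlam]
        exact Nat.lt_pow_succ_log_self (by norm_num) n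
      have hS : ∀ ω, size (C ω) + (C ω).numNot ≤ 2 ^ W := by
        intro ω
        have h1 := numNot_le (C ω)
        have h2 := hs ω
        calc size (C ω) + (C ω).numNot ≤ 2 ^ w + 2 ^ w := by omega
          _ = 2 ^ (w + 1) := by rw [pow_succ]; ring
          _ ≤ 2 ^ W := Nat.pow_le_pow_right (by norm_num) hWw
      have h1 := pm_size hq hm0 hW1 hklt (by rw [hk]) Ω p C hdec ht hS
      have hWδ : 1 / (W : ℝ) ≤ δ / 2 := by
        have hW0 : (0 : ℝ) < W := by exact_mod_cast hW1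
        rw [div_le_div_iff₀ hW0 (by norm_num)]
        have h3 : (K : ℝ) ≤ W := by
          rw [hW]
          have : K ≤ K * w := Nat.le_mul_of_pos_right _ hw
          exact_mod_cast this
        have h4 : 2 / δ ≤ (W : ℝ) := hKδ.trans h3
        rw [div_le_iff₀ hδ] at h4
        linarith
      have hmR : (0 : ℝ) < m := by exact_mod_cast hm0
      have h2 : δ / 2 ≤ 2 ^ t / m := by linarith
      rw [le_div_iff₀ hmR] at h2
      have h3 : (m : ℝ) ≤ 2 / δ * 2 ^ t := by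
        rw [div_mul_eq_mul_div, le_div_iff₀ hδ]
        linarith
      have h4 : n < (m + 1) * k := by
        rw [hm]
        exact Nat.lt_mul_of_div_lt (Nat.lt_succ_self _) hkpos
      have h5 : (n : ℝ) ≤ 2 * m * k := by
        have h6 : (m + 1) * k ≤ 2 * m * k := Nat.mul_le_mul_right _ (by omega)
        have h7 : n ≤ 2 * m * k := h4.le.trans h6
        exact_mod_cast h7
      calc (n : ℝ) ≤ 2 * m * k := h5
        _ ≤ 2 * (2 / δ * 2 ^ t) * k := by gcongr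
        _ = 4 / δ * 2 ^ t * k := by ring
        _ ≤ A * 2 ^ t * k := by
            rw [hA]
            gcongr
            linarith
  have hk2 : (k : ℝ) ≤ 2 ^ 59 * (3 * K) ^ 8 * (w * Real.logb 2 (n + 2)) ^ 8 := by
    have h1 : ((lam + 1 : ℕ) : ℝ) ≤ 3 * Real.logb 2 (n + 2) := by
      rw [hlam]
      exact log_le n
    have h2 : (k : ℝ) = 2 ^ 59 * ((lam + 1 : ℕ) : ℝ) ^ 8 * (K * w) ^ 8 := by
      rw [hk, hW]
      push_cast
      ring
    rw [h2]
    calc (2 : ℝ) ^ 59 * ((lam + 1 : ℕ) : ℝ) ^ 8 * (K * w) ^ 8 ≤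
        2 ^ 59 * (3 * Real.logb 2 (n + 2)) ^ 8 * (K * w) ^ 8 := by gcongr
      _ = _ := by ring
  rw [div_mul_eq_mul_div, one_mul, div_le_iff₀ (by positivity)]
  calc (n : ℝ) ≤ A * 2 ^ t * k := hmain
    _ ≤ A * 2 ^ t * (2 ^ 59 * (3 * K) ^ 8 * (w * Real.logb 2 (n + 2)) ^ 8) := by gcongr
    _ = _ := by ring

end Pool.Agent.W2helper76.SZ
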